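import Mathlib

/-!
# The cell expander (MP_c59857_nt, N4): definitions (helper31)
-/

set_option autoImplicit false

open Finset

namespace Pool.Agent.H31.XCE

/-- centred indicator of divisibility -/
noncomputable def cd (p : ℕ) (n : ℤ) : ℝ := (if (p : ℤ) ∣ n then 1 else 0) - 1 / (p : ℝ)

/-- its majorant -/
noncomputable def cp (p : ℕ) (n : ℤ) : ℝ := (if (p : ℤ) ∣ n then 1 else 0) + 1 / (p : ℝ)

/-- sum of reciprocals -/
noncomputable def LL (Q : Finset ℕ) : ℝ := ∑ p ∈ Q, 1 / (p : ℝ)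

section
variable {n : ℕ}

/-- the positions `ν` of the slots in `U` are consistent: equal primes see congruent positions -/
def Cons (ρ : Fin n → ℕ) (ν : Fin n → ℤ) (U : Finset (Fin n)) : Prop :=
  ∀ x ∈ U, ∀ x' ∈ U, ρ x = ρ x' → ((ρ x : ℕ) : ℤ) ∣ ν x - ν x'

/-- every prime occurs at least twice -/
def NoSing (ρ : Fin n → ℕ) : Prop := ∀ x, ∃ x', x' ≠ x ∧ ρ x' = ρ x

/-- the weight of a set of used slots -/
noncomputable def wt (ρ : Fin n → ℕ) (U : Finset (Fin n)) : ℝ :=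
  (∏ x ∈ Uᶜ, 1 / ((ρ x : ℕ) : ℝ)) * ∏ p ∈ U.image ρ, 1 / ((p : ℕ) : ℝ)

open Classical in
/-- the mean of the majorant over a period -/
noncomputable def EE (ρ : Fin n → ℕ) (ν : Fin n → ℤ) : ℝ :=
  ∑ U ∈ (univ : Finset (Fin n)).powerset, if Cons ρ ν U then wt ρ U else 0

open Classical in
/-- the steps which are not used or whose prime is new among the used ones -/
noncomputable def fresh (ρ : Fin n → ℕ) (U : Finset (Fin n)) : Finset (Fin n) :=
  univ.filter fun t => t ∈ U → ∀ s ∈ U, s < t → ρ s ≠ ρ t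

end

/-- the finite set of states `-m, …, m` -/
abbrev Lam (m : ℕ) : Type := {i : ℤ // i ∈ Finset.Icc (-(m : ℤ)) m}

section
variable {σ : Type}

/-- the path of a word `w` from the state `i`; at time `t` the step is `nx t` -/
def pth (nx : ℕ → ℤ → σ → ℤ) (i : ℤ) (w : ℕ → σ) : ℕ → ℤ
  | 0 => i
  | t + 1 => nx t (pth nx i w t) (w t)

/-- extension of a finite word -/
def ext [Inhabited σ] {n : ℕ} (w : Fin n → σ) : ℕ → σ :=
  fun t => if h : t < n then w ⟨t, h⟩ else default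

/-- the path of `w` from `i` stays in `[-m, m]` and is closed -/
def Closed [Inhabited σ] (nx : ℕ → ℤ → σ → ℤ) (m n : ℕ) (i : ℤ) (w : Fin n → σ) : Prop :=
  (∀ t ≤ n, pth nx i (ext w) t ∈ Finset.Icc (-(m : ℤ)) m) ∧ pth nx i (ext w) n = i

end

/-- products of a sequence of matrices -/
noncomputable def prd {m : ℕ} (V : ℕ → Matrix (Lam m) (Lam m) ℂ) : ℕ → Matrix (Lam m) (Lam m) ℂ
  | 0 => 1
  | t + 1 => prd V t * V t

/-- the weighted coefficient of the integer `x` and of the prime `p` at the place `y` -/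
noncomputable def cf (S : ℕ) (w : ℤ → ℕ → ℂ) (y : ℕ) (x : ℤ) (p : ℕ) : ℂ :=
  w x p * ((cd p (S * y + x) : ℝ) : ℂ)

/-- the matrix between cells of length `S`: `x` runs over `[0, M)`, `p` over `Q`, the row is the
cell of `x + B p`, the column the cell of `x + A p` -/
noncomputable def VV (Q : Finset ℕ) (S M m : ℕ) (A B : ℕ → ℤ) (w : ℤ → ℕ → ℂ) (y : ℕ) :
    Matrix (Lam m) (Lam m) ℂ :=
  fun i j => ∑ x ∈ range M, ∑ p ∈ Q,
    if ((x : ℤ) + B p) / (S : ℤ) = i.1 ∧ ((x : ℤ) + A p) / (S : ℤ) = j.1 then cf S w y x p else 0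

/-- the next state after the step `s = (offset, prime)` -/
def nxt (S : ℕ) (A B : ℕ → ℤ) (i : ℤ) (s : ℕ × ℕ) : ℤ :=
  i + ((s.1 : ℤ) + A s.2 - B s.2) / (S : ℤ)

/-- the integer of a step from the state `i` -/
def pos (S : ℕ) (B : ℕ → ℤ) (i : ℤ) (s : ℕ × ℕ) : ℤ := S * i + (s.1 : ℤ) - B s.2

open Classical in
/-- the coefficient of a step from the state `i` -/
noncomputable def xi (S M : ℕ) (B : ℕ → ℤ) (w : ℤ → ℕ → ℂ) (y : ℕ) (i : ℤ) (s : ℕ × ℕ) : ℂ :=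
  if 0 ≤ pos S B i s ∧ pos S B i s < M then cf S w y (pos S B i s) s.2 else 0

/-- the bilinear form -/
noncomputable def TT (Q : Finset ℕ) (S M : ℕ) (A B : ℕ → ℤ) (w : ℤ → ℕ → ℂ) (y : ℕ)
    (F G : ℤ → ℂ) : ℂ :=
  ∑ x ∈ range M, ∑ p ∈ Q, cf S w y x p * F (((x : ℤ) + B p) / (S : ℤ)) *
    G (((x : ℤ) + A p) / (S : ℤ))

/-- `e x = exp (2 π i x)` -/
noncomputable def e (x : ℝ) : ℂ := Complex.exp (2 * Real.pi * x * Complex.I)

/-- the bilinear form of the block `[n, n + M)`: cell functions `F (· / S)` at `x + b p` and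
`G (· / S)` at `x + a p`, weight `v p` -/
noncomputable def B1 (Q : Finset ℕ) (S M n : ℕ) (v : ℕ → ℂ) (a b : ℤ) (α β : ℝ) (F G : ℤ → ℂ) :
    ℂ :=
  ∑ x ∈ Ico n (n + M), ∑ p ∈ Q, v p * ((cd p x : ℝ) : ℂ) * e (α * x + β * p) *
    F (((x : ℤ) + b * p) / (S : ℤ)) * G (((x : ℤ) + a * p) / (S : ℤ))

/-- the unit ball -/
def Bd (F : ℤ → ℂ) : Prop := ∀ n, ‖F n‖ ≤ 1

/-- the block of `n` is bad: some pair of cell functions, phases and shifts gives a large form -/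
def Bad (ε : ℝ) (J : ℕ) (Q : Finset ℕ) (S M : ℕ) (v : ℕ → ℂ) (n : ℕ) : Prop :=
  ∃ (a b : ℤ) (α β : ℝ) (F G : ℤ → ℂ), |a| ≤ J ∧ |b| ≤ J ∧ Bd F ∧ Bd G ∧
    ε * M * LL Q < ‖B1 Q S M n v a b α β F G‖

/-- the hypotheses on the parameters: `C` large, cells `S ≥ C (log P)^4`, primes in `(S, P]`,
blocks of length `M`, average over `L` places -/
structure Hyp (C : ℝ) (D S M L P : ℕ) (Q : Finset ℕ) : Prop where
  hP : C ≤ P
  hQ : ∀ p ∈ Q, p.Prime ∧ S < p ∧ p ≤ P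
  hS : C * Real.log P ^ 4 ≤ S
  hL : 1 / Real.log P ≤ 16 * LL Q
  hM : P ≤ M
  hMD : M ≤ P ^ D
  hLL : C * Real.log P ^ 2 ≤ Real.log S * Real.log L

/-- the primes in `(2^m, 2^(m+1)]` -/
def oct (m : ℕ) : Finset ℕ := (Ioc (2 ^ m) (2 ^ (m + 1))).filter Nat.Prime

/-- the form of the octave `m` with the weights `p 1_(p | x) - 1` -/
noncomputable def B8 (K m S n : ℕ) (a b : ℤ) (α β : ℝ) (F G : ℤ → ℂ) : ℂ :=
  ∑ x ∈ Ico n (n + K * 2 ^ m), ∑ p ∈ oct m, ((if p ∣ x then (p : ℂ) else 0) - 1) *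
    e (α * x + β * p) * F (((x : ℤ) + b * p) / (S : ℤ)) * G (((x : ℤ) + a * p) / (S : ℤ))

end Pool.Agent.H31.XCE
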