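import Pool.Agent.H31.XCE.Defs

/-!
# The cell expander (MP_c59857_nt, N4): targets (helper31)

Every `T_X` is a proposition to be proved in a module of its own.
-/

set_option autoImplicit false

open Finset

namespace Pool.Agent.H31.XCE

/-! ## A. Moments -/

/-- CDB: elementary properties of `cd` and `cp`. -/
def T_CDB : Prop :=
  ∀ p : ℕ, p.Prime →
    (∀ n : ℤ, |cd p n| ≤ 1 ∧ |cd p n| ≤ cp p n ∧ 0 ≤ cp p n ∧ cp p n ≤ 2) ∧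
    (∀ (S y : ℕ) (v : ℤ) (k : ℕ), cd p (S * ((y + p * k : ℕ) : ℤ) + v) = cd p (S * (y : ℤ) + v) ∧
      cp p (S * ((y + p * k : ℕ) : ℤ) + v) = cp p (S * (y : ℤ) + v)) ∧
    ∀ (S K Y : ℕ) (v : ℤ), 1 ≤ S → S < p → K.Coprime p →
      ∑ t ∈ range p, cd p (S * ((Y + K * t : ℕ) : ℤ) + v) = 0

/-- IVP: intervals and periods. -/
def T_IVP : Prop :=
  ∀ (Φ : ℕ → ℝ) (K : ℕ), 1 ≤ K → (∀ y, Φ (y + K) = Φ y) →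
    (∀ Y L : ℕ, (∀ y, |Φ y| ≤ 1) → ∑ y ∈ range K, Φ y = 0 → |∑ y ∈ Ico Y (Y + L), Φ y| ≤ K) ∧
    (∀ Y L : ℕ, (∀ y, 0 ≤ Φ y) →
      ∑ y ∈ Ico Y (Y + L), Φ y ≤ ((L : ℝ) / K + 1) * ∑ y ∈ range K, Φ y)

/-- SNG: a prime which occurs only once kills the mean over a period. -/
def T_SNG : Prop :=
  ∀ (n : ℕ) (ρ : Fin n → ℕ) (ν : Fin n → ℤ) (S : ℕ), 1 ≤ S →
    (∀ x, (ρ x).Prime ∧ S < ρ x) → ¬ NoSing ρ →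
      ∑ y ∈ range (∏ p ∈ univ.image ρ, p), ∏ x, cd (ρ x) (S * (y : ℤ) + ν x) = 0

/-- MAJ: the mean of the majorant over a period. -/
def T_MAJ : Prop :=
  ∀ (n : ℕ) (ρ : Fin n → ℕ) (ν : Fin n → ℤ) (S : ℕ), 1 ≤ S →
    (∀ x, (ρ x).Prime ∧ S < ρ x) →
      ∑ y ∈ range (∏ p ∈ univ.image ρ, p), ∏ x, cp (ρ x) (S * (y : ℤ) + ν x) ≤
        ((∏ p ∈ univ.image ρ, p : ℕ) : ℝ) * EE ρ ν

open Classical in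
/-- MOM: the mixed moments over an interval. -/
def T_MOM : Prop :=
  ∀ (n : ℕ) (ρ : Fin n → ℕ) (ν : Fin n → ℤ) (S Y L P : ℕ), 1 ≤ S →
    (∀ x, (ρ x).Prime ∧ S < ρ x ∧ ρ x ≤ P) →
      |∑ y ∈ Ico Y (Y + L), ∏ x, cd (ρ x) (S * (y : ℤ) + ν x)| ≤
        (L : ℝ) * (if NoSing ρ then EE ρ ν else 0) + (2 * (P : ℝ)) ^ n

/-! ## B. Counting -/

open Classical in
/-- CNT: the number of consistent offsets. -/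
def T_CNT : Prop :=
  ∀ (n S : ℕ) (ρ : Fin n → ℕ) (ν : (Fin n → ℕ) → Fin n → ℤ), (∀ x, S ≤ ρ x) →
    (∀ (o o' : Fin n → ℕ) (t : Fin n), (∀ s, s < t → o s = o' s) →
      ν o t - o t = ν o' t - o' t) →
    ∀ U : Finset (Fin n),
      ((Fintype.piFinset fun _ : Fin n => range S).filter fun o => Cons ρ (ν o) U).card ≤
        S ^ (fresh ρ U).card

/-- FRS: the weight of a pattern. -/
def T_FRS : Prop :=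
  ∀ (n S : ℕ) (ρ : Fin n → ℕ) (U : Finset (Fin n)), 1 ≤ S → (∀ x, S ≤ ρ x) →
    wt ρ U * (S : ℝ) ^ (fresh ρ U).card ≤ ∏ p ∈ univ.image ρ, (S : ℝ) / ((p : ℕ) : ℝ)

/-- ESY: elementary symmetric functions. -/
def T_ESY : Prop :=
  ∀ (Q : Finset ℕ) (f : ℕ → ℝ) (r : ℕ), (∀ p, 0 ≤ f p) →
    ∑ R ∈ Q.powersetCard r, ∏ p ∈ R, f p ≤ (∑ p ∈ Q, f p) ^ r / (r.factorial : ℝ)

open Classical in
/-- PAT: the sum over the patterns. -/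
def T_PAT : Prop :=
  ∀ (S h : ℕ) (Q : Finset ℕ), 1 ≤ S * LL Q →
    ∑ ρ ∈ (Fintype.piFinset fun _ : Fin (2 * h) => Q).filter (fun ρ => NoSing ρ),
      ∏ p ∈ univ.image ρ, (S : ℝ) / ((p : ℕ) : ℝ) ≤
        3 * ((2 * h : ℕ) : ℝ) ^ (2 * h) * (S * LL Q) ^ h

/-- WSM: the sum over all words. -/
def T_WSM : Prop :=
  ∀ (h S Y L P : ℕ) (Q : Finset ℕ) (ν : (Fin (2 * h) → ℕ) → (Fin (2 * h) → ℕ) → Fin (2 * h) → ℤ),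
    1 ≤ S → (∀ p ∈ Q, p.Prime ∧ S < p ∧ p ≤ P) → 1 ≤ S * LL Q →
    (∀ (ρ o o' : Fin (2 * h) → ℕ) (t : Fin (2 * h)), (∀ s, s < t → o s = o' s) →
      ν o ρ t - o t = ν o' ρ t - o' t) →
      ∑ ρ ∈ Fintype.piFinset (fun _ : Fin (2 * h) => Q),
        ∑ o ∈ Fintype.piFinset (fun _ : Fin (2 * h) => range S),
          |∑ y ∈ Ico Y (Y + L), ∏ t, cd (ρ t) (S * (y : ℤ) + ν o ρ t)| ≤
        (L : ℝ) * (3 * (4 * (h : ℝ)) ^ (2 * h) * (S * LL Q) ^ h) +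
          ((S : ℝ) * (2 * (P : ℝ) ^ 2)) ^ (2 * h)

/-! ## C. Traces -/

/-- PWR: the power trick. -/
def T_PWR : Prop :=
  ∀ (ι : Type) [Fintype ι] [DecidableEq ι] (V : Matrix ι ι ℂ) (F G : ι → ℂ) (k : ℕ),
    (∀ i, ‖F i‖ ≤ 1) → (∀ i, ‖G i‖ ≤ 1) →
      ‖∑ i, ∑ j, F i * V i j * G j‖ ^ (4 * 2 ^ k) ≤
        (Fintype.card ι : ℝ) ^ (4 * 2 ^ k) *
          (((V * V.conjTranspose) ^ (2 * 2 ^ k)).trace).re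

open Classical in
/-- WLK: traces of products as sums over closed paths. -/
def T_WLK : Prop :=
  ∀ (σ : Type) [Inhabited σ] (St : Finset σ) (nx : ℕ → ℤ → σ → ℤ) (ξ : ℕ → ℤ → σ → ℂ) (m n : ℕ)
    (V : ℕ → Matrix (Lam m) (Lam m) ℂ),
    (∀ (t : ℕ) (i j : Lam m), V t i j = ∑ s ∈ St, if nx t i.1 s = j.1 then ξ t i.1 s else 0) →
      (prd V n).trace = ∑ i ∈ Finset.Icc (-(m : ℤ)) m,
        ∑ w ∈ Fintype.piFinset (fun _ : Fin n => St),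
          if Closed nx m n i w then
            ∏ t : Fin n, ξ t (pth nx i (ext w) t) (w t) else 0

/-- ALT: alternating products. -/
def T_ALT : Prop :=
  ∀ (m k : ℕ) (V W : Matrix (Lam m) (Lam m) ℂ),
    prd (fun t => if t % 2 = 0 then V else W) (2 * k) = (V * W) ^ k

/-- REP: the matrix between cells in terms of steps, and its adjoint. -/
def T_REP : Prop :=
  ∀ (Q : Finset ℕ) (S M m : ℕ) (A B : ℕ → ℤ) (w : ℤ → ℕ → ℂ) (y : ℕ), 1 ≤ S →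
    (∀ i j : Lam m, VV Q S M m A B w y i j =
      ∑ s ∈ range S ×ˢ Q, if nxt S A B i.1 s = j.1 then xi S M B w y i.1 s else 0) ∧
    (VV Q S M m A B w y).conjTranspose =
      VV Q S M m B A (fun x p => (starRingEnd ℂ) (w x p)) y

/-- TRB: the average of the trace. -/
def T_TRB : Prop :=
  ∀ (h S M m Y L P : ℕ) (Q : Finset ℕ) (A B : ℕ → ℤ) (w : ℤ → ℕ → ℂ), 1 ≤ S →
    (∀ p ∈ Q, p.Prime ∧ S < p ∧ p ≤ P) → 1 ≤ S * LL Q → (∀ x p, ‖w x p‖ ≤ 1) →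
      ∑ y ∈ Ico Y (Y + L), ((((VV Q S M m A B w y) *
          (VV Q S M m A B w y).conjTranspose) ^ h).trace).re ≤
        (2 * (m : ℝ) + 1) * ((L : ℝ) * (3 * (4 * (h : ℝ)) ^ (2 * h) * (S * LL Q) ^ h) +
          ((S : ℝ) * (2 * (P : ℝ) ^ 2)) ^ (2 * h))

/-- GEN: the moment of the bilinear form. -/
def T_GEN : Prop :=
  ∀ (k S M m Y L P : ℕ) (Q : Finset ℕ) (A B : ℕ → ℤ) (w : ℤ → ℕ → ℂ) (F G : ℕ → ℤ → ℂ),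
    1 ≤ S → (∀ p ∈ Q, p.Prime ∧ S < p ∧ p ≤ P) → 1 ≤ S * LL Q → (∀ x p, ‖w x p‖ ≤ 1) →
    (∀ y, Bd (F y)) → (∀ y, Bd (G y)) →
    (∀ x < M, ∀ p ∈ Q, |((x : ℤ) + B p) / (S : ℤ)| ≤ m ∧ |((x : ℤ) + A p) / (S : ℤ)| ≤ m) →
      ∑ y ∈ Ico Y (Y + L), ‖TT Q S M A B w y (F y) (G y)‖ ^ (4 * 2 ^ k) ≤
        (2 * (m : ℝ) + 1) ^ (4 * 2 ^ k + 1) *
          ((L : ℝ) * (3 * (8 * 2 ^ k) ^ (4 * 2 ^ k) * (S * LL Q) ^ (2 * 2 ^ k)) +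
          ((S : ℝ) * (2 * (P : ℝ) ^ 2)) ^ (4 * 2 ^ k))

open Classical in
/-- MKV: the inequality of Markov for the bilinear form. -/
def T_MKV : Prop :=
  ∀ (k S M m Y L P : ℕ) (ε κ : ℝ) (Q : Finset ℕ) (A B : ℕ → ℤ) (w : ℤ → ℕ → ℂ), 0 < ε →
    0 < κ → 1 ≤ S → (∀ p ∈ Q, p.Prime ∧ S < p ∧ p ≤ P) → 1 ≤ S * LL Q →
    (∀ x p, ‖w x p‖ ≤ 1) → 1 ≤ M → 1 ≤ m →
    (∀ x < M, ∀ p ∈ Q, |((x : ℤ) + B p) / (S : ℤ)| ≤ m ∧ |((x : ℤ) + A p) / (S : ℤ)| ≤ m) →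
    (m : ℝ) * S ≤ κ * M →
      ((((Ico Y (Y + L)).filter fun y => ∃ F G : ℤ → ℂ, Bd F ∧ Bd G ∧
        ε * M * LL Q < ‖TT Q S M A B w y F G‖).card : ℕ) : ℝ) ≤
          (3 * (m : ℝ)) * (3 * κ / ε) ^ (4 * 2 ^ k) *
            ((L : ℝ) * (3 * (8 * 2 ^ k) ^ (4 * 2 ^ k) / (S * LL Q) ^ (2 * 2 ^ k)) +
            ((S : ℝ) * (2 * (P : ℝ) ^ 2)) ^ (4 * 2 ^ k))

/-! ## D. Results -/

/-- PAR: choice of the exponent. -/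
def T_PAR : Prop :=
  ∀ (ε κ : ℝ) (D : ℕ), 0 < ε → 1 ≤ κ → ∃ C : ℝ, 1 ≤ C ∧
    ∀ (S M L P m : ℕ) (Q : Finset ℕ), Hyp C D S M L P Q → (m : ℝ) ≤ κ * M →
      ∃ k : ℕ, 1 ≤ S ∧ 1 ≤ S * LL Q ∧
        (3 * (m : ℝ)) * (3 * κ / ε) ^ (4 * 2 ^ k) *
            ((L : ℝ) * (3 * (8 * 2 ^ k) ^ (4 * 2 ^ k) / (S * LL Q) ^ (2 * 2 ^ k)) +
            ((S : ℝ) * (2 * (P : ℝ) ^ 2)) ^ (4 * 2 ^ k)) ≤
          (L : ℝ) / (P : ℝ) ^ D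

open Classical in
/-- FIX: a fixed weight. -/
def T_FIX : Prop :=
  ∀ (ε : ℝ) (D J : ℕ), 0 < ε → ∃ C : ℝ, 1 ≤ C ∧
    ∀ (S M L P Y : ℕ) (Q : Finset ℕ) (A B : ℕ → ℤ) (w : ℤ → ℕ → ℂ),
      Hyp C D S M L P Q → (∀ x p, ‖w x p‖ ≤ 1) → (∀ p ∈ Q, |A p| ≤ J * P ∧ |B p| ≤ J * P) →
        ((((Ico Y (Y + L)).filter fun y => ∃ F G : ℤ → ℂ, Bd F ∧ Bd G ∧
          ε * M * LL Q < ‖TT Q S M A B w y F G‖).card : ℕ) : ℝ) ≤ (L : ℝ) / (P : ℝ) ^ D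

/-- NET: nets of phases. -/
def T_NET : Prop :=
  (∀ x y : ℝ, ‖e x - e y‖ ≤ 2 * Real.pi * |x - y|) ∧
  (∀ (x : ℝ), ‖e x‖ = 1) ∧ (∀ x y : ℝ, e (x + y) = e x * e y) ∧
  (∀ (α : ℝ) (K : ℕ), 1 ≤ K → ∃ k < K, ∃ z : ℤ, |α - z - (k : ℝ) / K| ≤ 1 / K) ∧
  (∀ z : ℤ, e z = 1) ∧
  ∀ (Q : Finset ℕ) (M n : ℕ), (∀ p ∈ Q, p.Prime ∧ p ≤ M) →
    ∑ x ∈ Ico n (n + M), ∑ p ∈ Q, |cd p x| ≤ 3 * M * LL Q

open Classical in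
/-- BLK: a block which starts anywhere, fixed shifts and phases. -/
def T_BLK : Prop :=
  ∀ (ε : ℝ) (D J : ℕ), 0 < ε → ∃ C : ℝ, 1 ≤ C ∧
    ∀ (S M L P Y : ℕ) (Q : Finset ℕ) (v : ℕ → ℂ) (a b : ℤ) (α β : ℝ), Hyp C D S M L P Q →
      (∀ p, ‖v p‖ ≤ 1) → |a| ≤ J → |b| ≤ J →
        ((((Ico Y (Y + L)).filter fun n => ∃ F G : ℤ → ℂ, Bd F ∧ Bd G ∧
          ε * M * LL Q < ‖B1 Q S M n v a b α β F G‖).card : ℕ) : ℝ) ≤ (L : ℝ) / (P : ℝ) ^ D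

open Classical in
/-- K1: two cell functions, all phases, all shifts. -/
def T_K1 : Prop :=
  ∀ (ε : ℝ) (D J : ℕ), 0 < ε → ∃ C : ℝ, 1 ≤ C ∧
    ∀ (S M L P Y : ℕ) (Q : Finset ℕ) (v : ℕ → ℂ), Hyp C D S M L P Q → (∀ p, ‖v p‖ ≤ 1) →
      ((((Ico Y (Y + L)).filter fun n => Bad ε J Q S M v n).card : ℕ) : ℝ) ≤
          (L : ℝ) / (P : ℝ) ^ D

open Classical in
/-- LOG: from intervals to logarithmic averages. -/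
def T_LOG : Prop :=
  ∀ (Bd : ℕ → Prop) (L X : ℕ) (δ : ℝ), 1 ≤ L → 1 ≤ X → 0 ≤ δ →
    (∀ Y : ℕ, ((((Ico Y (Y + L)).filter Bd).card : ℕ) : ℝ) ≤ δ * L) →
      ∑ y ∈ (Icc 1 X).filter Bd, 1 / (y : ℝ) ≤ 1 + Real.log L + δ * (1 + Real.log X)

open Classical in
/-- K1L: logarithmic averages. -/
def T_K1L : Prop :=
  ∀ (ε : ℝ) (D J : ℕ), 0 < ε → ∃ C : ℝ, 1 ≤ C ∧
    ∀ (S M L P X : ℕ) (Q : Finset ℕ) (v : ℕ → ℂ), Hyp C D S M L P Q → (∀ p, ‖v p‖ ≤ 1) →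
      1 ≤ X → ∑ n ∈ (Icc 1 X).filter (fun n => Bad ε J Q S M v n), 1 / (n : ℝ) ≤
        1 + Real.log L + (1 + Real.log X) / (P : ℝ) ^ D

/-- OCT: Chebyshev for one octave. -/
def T_OCT : Prop :=
  ∃ m₀ : ℕ, ∀ m : ℕ, m₀ ≤ m →
    ((oct m).card : ℝ) / 2 ^ (m + 1) ≤ LL (oct m) ∧ LL (oct m) ≤ ((oct m).card : ℝ) / 2 ^ m ∧
      1 / Real.log ((2 : ℝ) ^ (m + 1)) ≤ 16 * LL (oct m)

open Classical in
/-- DEX: decoupling in the octave `m`, cells of length `S ≥ C m^4`, `m^2 ≤ c log S log X`: the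
interface for section (B). -/
def T_DEX : Prop :=
  ∀ (ε : ℝ) (J K : ℕ), 0 < ε → 2 ≤ K → ∃ C : ℝ, 1 ≤ C ∧
    ∀ (S m X : ℕ), C ≤ m → C * (m : ℝ) ^ 4 ≤ S → S ≤ 2 ^ m → 1 ≤ X →
      C * (m : ℝ) ^ 2 ≤ Real.log S * Real.log X →
        ∑ n ∈ (Icc 1 X).filter (fun n => ∃ (a b : ℤ) (α β : ℝ) (F G : ℤ → ℂ),
          |a| ≤ J ∧ |b| ≤ J ∧ Bd F ∧ Bd G ∧
            ε * ((oct m).card * (K * 2 ^ m)) < ‖B8 K m S n a b α β F G‖), 1 / (n : ℝ) ≤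
          ε * Real.log X

end Pool.Agent.H31.XCE
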